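import Pool.Agent.Helper84.AA.Turan

/-!
# PW (1): Brun's sieve in blocks, one residue class for each prime

`J = {a, ..., a + M - 1}`, blocks `B 0, ..., B (R - 1)` of primes, a residue class `c l` for each prime.
For each block `ff B c t = 1 - ν + ν (ν - 1) / 2`, `ν` the number of the `l ∈ B` with `l ∣ t - c l`; it is
nonnegative, and `1` if `ν = 0`.
-/

set_option autoImplicit false

namespace Pool.Agent.Helper86.PW

open Pool.Agent.Helper84.AA (count_div crt_dvd)

/-- The indicator of `l ∣ t - c l`. -/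
noncomputable def ind (c : ℕ → ℤ) (t : ℤ) (l : ℕ) : ℝ := if (l : ℤ) ∣ t - c l then 1 else 0

/-- `1 - ν + ν (ν - 1) / 2`. -/
noncomputable def ff (B : Finset ℕ) (c : ℕ → ℤ) (t : ℤ) : ℝ :=
  1 - ∑ l ∈ B, ind c t l + 1 / 2 * ∑ x ∈ B.offDiag, ind c t x.1 * ind c t x.2

/-- The mean of `ff`. -/
noncomputable def gg (B : Finset ℕ) : ℝ :=
  1 - ∑ l ∈ B, (1 : ℝ) / l + 1 / 2 * ∑ x ∈ B.offDiag, (1 : ℝ) / (x.1 * x.2)

theorem ind_sq (c : ℕ → ℤ) (t : ℤ) (l : ℕ) : ind c t l * ind c t l = ind c t l := by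
  unfold ind
  split_ifs <;> simp

theorem offDiag_sum (B : Finset ℕ) (f : ℕ → ℝ) :
    ∑ x ∈ B.offDiag, f x.1 * f x.2 = (∑ l ∈ B, f l) ^ 2 - ∑ l ∈ B, f l * f l := by
  classical
  have h1 : (∑ l ∈ B, f l) ^ 2 = ∑ x ∈ B ×ˢ B, f x.1 * f x.2 := by
    rw [sq, Finset.sum_mul_sum, Finset.sum_product]
  have h2 := Finset.diag_union_offDiag (s := B)
  have h3 : ∑ x ∈ B.diag, f x.1 * f x.2 = ∑ l ∈ B, f l * f l := by
    rw [Finset.sum_diag]
  rw [h1, ← h2, Finset.sum_union (Finset.disjoint_diag_offDiag B), h3]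
  ring

theorem ff_eq (B : Finset ℕ) (c : ℕ → ℤ) (t : ℤ) :
    ff B c t = (((B.filter fun l : ℕ => (l : ℤ) ∣ t - c l).card : ℝ) - 1) *
      (((B.filter fun l : ℕ => (l : ℤ) ∣ t - c l).card : ℝ) - 2) / 2 := by
  classical
  have h1 : ∑ l ∈ B, ind c t l = ((B.filter fun l : ℕ => (l : ℤ) ∣ t - c l).card : ℝ) := by
    unfold ind
    rw [Finset.sum_ite, Finset.sum_const_zero, add_zero, Finset.sum_const, nsmul_eq_mul, mul_one]
  have h2 : ∑ l ∈ B, ind c t l * ind c t l = ∑ l ∈ B, ind c t l :=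
    Finset.sum_congr rfl fun l _ => ind_sq c t l
  rw [ff, offDiag_sum B (ind c t), h2, h1]
  ring

theorem ff_nonneg (B : Finset ℕ) (c : ℕ → ℤ) (t : ℤ) : 0 ≤ ff B c t := by
  rw [ff_eq]
  set n := (B.filter fun l : ℕ => (l : ℤ) ∣ t - c l).card with hn
  rcases Nat.lt_or_ge n 1 with h | h
  · have : n = 0 := by omega
    rw [this]; norm_num
  · rcases Nat.lt_or_ge n 2 with h' | h'
    · have : n = 1 := by omega
      rw [this]; norm_num
    · have h1 : (2 : ℝ) ≤ n := by exact_mod_cast h'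
      have h2 : 0 ≤ ((n : ℝ) - 1) * ((n : ℝ) - 2) := mul_nonneg (by linarith) (by linarith)
      linarith

theorem ff_one (B : Finset ℕ) (c : ℕ → ℤ) (t : ℤ) (h : ∀ l ∈ B, ¬ (l : ℤ) ∣ t - c l) :
    ff B c t = 1 := by
  rw [ff_eq, Finset.filter_false_of_mem h]
  norm_num

theorem gg_le (B : Finset ℕ) :
    gg B ≤ 1 - ∑ l ∈ B, (1 : ℝ) / l + 1 / 2 * (∑ l ∈ B, (1 : ℝ) / l) ^ 2 := by
  have h1 : ∑ x ∈ B.offDiag, (1 : ℝ) / (x.1 * x.2) =
      ∑ x ∈ B.offDiag, (1 : ℝ) / x.1 * ((1 : ℝ) / x.2) :=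
    Finset.sum_congr rfl fun x _ => by rw [one_div_mul_one_div]
  have h2 := offDiag_sum B fun l => (1 : ℝ) / l
  have h3 : 0 ≤ ∑ l ∈ B, (1 : ℝ) / l * (1 / l) := Finset.sum_nonneg fun l _ => by positivity
  rw [gg, h1, h2]
  linarith

theorem gg_nonneg (B : Finset ℕ) (h : ∑ l ∈ B, (1 : ℝ) / l ≤ 1) : 0 ≤ gg B := by
  have h3 : 0 ≤ ∑ x ∈ B.offDiag, (1 : ℝ) / (x.1 * x.2) :=
    Finset.sum_nonneg fun l _ => by positivity
  rw [gg]
  linarith

/-- One more congruence. -/
theorem step (a : ℤ) (M : ℕ) (c : ℕ → ℤ) {D l : ℕ} (h : Nat.Coprime D l) (e : ℤ) : ∃ e' : ℤ,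
    ∀ F : ℤ → ℝ,
    ∑ t ∈ (Finset.Ico a (a + M)).filter (fun t => (D : ℤ) ∣ t - e), F t * ind c t l =
      ∑ t ∈ (Finset.Ico a (a + M)).filter (fun t => ((D * l : ℕ) : ℤ) ∣ t - e'), F t := by
  obtain ⟨e', he⟩ := crt_dvd (l := D) (l' := l) (Nat.isCoprime_iff_coprime.2 h) e (c l)
  refine ⟨e', fun F => ?_⟩
  have h1 : (Finset.Ico a (a + M)).filter (fun t => ((D * l : ℕ) : ℤ) ∣ t - e') =
      ((Finset.Ico a (a + M)).filter (fun t => (D : ℤ) ∣ t - e)).filter
        fun t => (l : ℤ) ∣ t - c l := by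
    rw [Finset.filter_filter]
    exact Finset.filter_congr fun t _ => (he t).symm
  rw [h1]
  conv_rhs => rw [Finset.sum_filter]
  refine Finset.sum_congr rfl fun t _ => ?_
  unfold ind
  split_ifs <;> simp

theorem brun_aux (a : ℤ) (M : ℕ) (B : ℕ → Finset ℕ) (c : ℕ → ℤ) (R : ℕ)
    (hp : ∀ r < R, ∀ l ∈ B r, l.Prime) (hd : ∀ r < R, ∀ s < r, Disjoint (B r) (B s)) :
    ∀ D : ℕ, 0 < D → (∀ r < R, ∀ l ∈ B r, Nat.Coprime D l) → ∀ e : ℤ,
    |∑ t ∈ (Finset.Ico a (a + M)).filter (fun t => (D : ℤ) ∣ t - e),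
        ∏ r ∈ Finset.range R, ff (B r) c t - M / D * ∏ r ∈ Finset.range R, gg (B r)| ≤
      ∏ r ∈ Finset.range R, (1 + ((B r).card : ℝ)) ^ 2 := by
  classical
  induction R with
  | zero =>
    intro D hD _ e
    simp only [Finset.range_zero, Finset.prod_empty, Finset.sum_const, nsmul_eq_mul, mul_one]
    obtain ⟨h1, h2⟩ := count_div a M D hD e
    rw [abs_le]
    constructor <;> linarith
  | succ R ih =>
    intro D hD hDB e
    have ih' := ih (fun r hr => hp r (by omega)) (fun r hr => hd r (by omega))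
    set F : ℤ → ℝ := fun t => ∏ r ∈ Finset.range R, ff (B r) c t with hF
    set G : ℝ := ∏ r ∈ Finset.range R, gg (B r) with hG
    set E : ℝ := ∏ r ∈ Finset.range R, (1 + ((B r).card : ℝ)) ^ 2 with hE
    set W : ℕ → ℤ → ℝ := fun D e =>
      ∑ t ∈ (Finset.Ico a (a + M)).filter (fun t => (D : ℤ) ∣ t - e), F t with hW
    have hE0 : 0 ≤ E := Finset.prod_nonneg fun r _ => by positivity
    have hR : R < R + 1 := Nat.lt_succ_self R
    -- one prime
    have h1 : ∀ l : ℕ, ∃ e' : ℤ, l ∈ B R →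
        (∑ t ∈ (Finset.Ico a (a + M)).filter (fun t => (D : ℤ) ∣ t - e), F t * ind c t l =
          W (D * l) e' ∧ |W (D * l) e' - M / ((D * l : ℕ) : ℝ) * G| ≤ E) := by
      intro l
      by_cases hl : l ∈ B R
      · obtain ⟨e', he⟩ := step a M c (hDB R hR l hl) e
        refine ⟨e', fun _ => ⟨he F, ?_⟩⟩
        refine ih' (D * l) (Nat.mul_pos hD (hp R hR l hl).pos) ?_ e'
        intro r hr l' hl'
        refine Nat.Coprime.mul_left (hDB r (by omega) l' hl') ?_
        rw [Nat.coprime_primes (hp R hR l hl) (hp r (by omega) l' hl')]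
        rintro rfl
        exact Finset.disjoint_left.1 (hd R hR r hr) hl hl'
      · exact ⟨0, fun h => absurd h hl⟩
    choose e1 he1 using h1
    -- two primes
    have h2 : ∀ x : ℕ × ℕ, ∃ e' : ℤ, x ∈ (B R).offDiag →
        (∑ t ∈ (Finset.Ico a (a + M)).filter (fun t => (D : ℤ) ∣ t - e),
          F t * (ind c t x.1 * ind c t x.2) = W (D * x.1 * x.2) e' ∧
          |W (D * x.1 * x.2) e' - M / ((D * x.1 * x.2 : ℕ) : ℝ) * G| ≤ E) := by
      intro x
      by_cases hx : x ∈ (B R).offDiag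
      · obtain ⟨hx1, hx2, hx3⟩ := Finset.mem_offDiag.1 hx
        obtain ⟨e', he⟩ := step a M c (hDB R hR x.1 hx1) e
        have hcop : Nat.Coprime (D * x.1) x.2 := by
          refine Nat.Coprime.mul_left (hDB R hR x.2 hx2) ?_
          rw [Nat.coprime_primes (hp R hR _ hx1) (hp R hR _ hx2)]
          exact hx3
        obtain ⟨e'', he'⟩ := step a M c hcop e'
        refine ⟨e'', fun _ => ⟨?_, ?_⟩⟩
        · rw [hW]
          simp only
          rw [← he' F, ← he fun t => F t * ind c t x.2]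
          refine Finset.sum_congr rfl fun t _ => by ring
        · refine ih' (D * x.1 * x.2)
            (Nat.mul_pos (Nat.mul_pos hD (hp R hR _ hx1).pos) (hp R hR _ hx2).pos) ?_ e''
          intro r hr l' hl'
          refine Nat.Coprime.mul_left (Nat.Coprime.mul_left (hDB r (by omega) l' hl') ?_) ?_
          · rw [Nat.coprime_primes (hp R hR _ hx1) (hp r (by omega) l' hl')]
            rintro h
            rw [h] at hx1
            exact Finset.disjoint_left.1 (hd R hR r hr) hx1 hl'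
          · rw [Nat.coprime_primes (hp R hR _ hx2) (hp r (by omega) l' hl')]
            rintro h
            rw [h] at hx2
            exact Finset.disjoint_left.1 (hd R hR r hr) hx2 hl'
      · exact ⟨0, fun h => absurd h hx⟩
    choose e2 he2 using h2
    have h0 := ih' D hD (fun r hr => hDB r (by omega)) e
    -- the sum
    have hsum : ∑ t ∈ (Finset.Ico a (a + M)).filter (fun t => (D : ℤ) ∣ t - e),
        ∏ r ∈ Finset.range (R + 1), ff (B r) c t =
        W D e - ∑ l ∈ B R, W (D * l) (e1 l) +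
          1 / 2 * ∑ x ∈ (B R).offDiag, W (D * x.1 * x.2) (e2 x) := by
      have e1' : ∑ l ∈ B R, W (D * l) (e1 l) = ∑ l ∈ B R,
          ∑ t ∈ (Finset.Ico a (a + M)).filter (fun t => (D : ℤ) ∣ t - e), F t * ind c t l :=
        Finset.sum_congr rfl fun l hl => (he1 l hl).1.symm
      have e2' : ∑ x ∈ (B R).offDiag, W (D * x.1 * x.2) (e2 x) = ∑ x ∈ (B R).offDiag,
          ∑ t ∈ (Finset.Ico a (a + M)).filter (fun t => (D : ℤ) ∣ t - e),
            F t * (ind c t x.1 * ind c t x.2) :=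
        Finset.sum_congr rfl fun x hx => (he2 x hx).1.symm
      rw [e1', e2', Finset.sum_comm, Finset.sum_comm (s := (B R).offDiag), Finset.mul_sum, hW]
      simp only
      rw [← Finset.sum_sub_distrib, ← Finset.sum_add_distrib]
      refine Finset.sum_congr rfl fun t _ => ?_
      rw [Finset.prod_range_succ, ff, ← Finset.mul_sum, ← Finset.mul_sum]
      ring
    have hDR : (D : ℝ) ≠ 0 := by exact_mod_cast hD.ne'
    have hmain : M / (D : ℝ) * ∏ r ∈ Finset.range (R + 1), gg (B r) =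
        M / (D : ℝ) * G - ∑ l ∈ B R, M / ((D * l : ℕ) : ℝ) * G +
          1 / 2 * ∑ x ∈ (B R).offDiag, M / ((D * x.1 * x.2 : ℕ) : ℝ) * G := by
      have e3 : ∀ l ∈ B R, (M : ℝ) / ((D * l : ℕ) : ℝ) * G = M / (D : ℝ) * G * (1 / l) := by
        intro l _
        push_cast
        rw [div_mul_eq_div_div, div_eq_mul_one_div (M / (D : ℝ)) (l : ℝ)]
        ring
      have e4 : ∀ x ∈ (B R).offDiag, (M : ℝ) / ((D * x.1 * x.2 : ℕ) : ℝ) * G =
          M / (D : ℝ) * G * (1 / (x.1 * x.2)) := by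
        intro x _
        push_cast
        rw [mul_assoc (D : ℝ), div_mul_eq_div_div, div_eq_mul_one_div (M / (D : ℝ))]
        ring
      rw [Finset.sum_congr rfl e3, Finset.sum_congr rfl e4, ← Finset.mul_sum, ← Finset.mul_sum,
        Finset.prod_range_succ, gg]
      ring
    rw [hsum, hmain]
    have hbound : |W D e - M / (D : ℝ) * G - ∑ l ∈ B R, (W (D * l) (e1 l) -
        M / ((D * l : ℕ) : ℝ) * G) + 1 / 2 * ∑ x ∈ (B R).offDiag, (W (D * x.1 * x.2) (e2 x) -
          M / ((D * x.1 * x.2 : ℕ) : ℝ) * G)| ≤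
        E + (B R).card * E + 1 / 2 * ((B R).offDiag.card * E) := by
      have b1 : |∑ l ∈ B R, (W (D * l) (e1 l) - M / ((D * l : ℕ) : ℝ) * G)| ≤
          (B R).card * E := by
        refine (Finset.abs_sum_le_sum_abs _ _).trans ?_
        rw [← nsmul_eq_mul]
        exact Finset.sum_le_card_nsmul _ _ _ fun l hl => (he1 l hl).2
      have b2 : |∑ x ∈ (B R).offDiag, (W (D * x.1 * x.2) (e2 x) -
          M / ((D * x.1 * x.2 : ℕ) : ℝ) * G)| ≤ (B R).offDiag.card * E := by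
        refine (Finset.abs_sum_le_sum_abs _ _).trans ?_
        rw [← nsmul_eq_mul]
        exact Finset.sum_le_card_nsmul _ _ _ fun x hx => (he2 x hx).2
      rw [abs_le] at h0 b1 b2 ⊢
      constructor <;> linarith [h0.1, h0.2, b1.1, b1.2, b2.1, b2.2]
    have hoff : ((B R).offDiag.card : ℝ) ≤ (B R).card * (B R).card := by
      have := Finset.offDiag_card (s := B R)
      have h3 : (B R).offDiag.card ≤ (B R).card * (B R).card := by omega
      exact_mod_cast h3
    have hfin : E + (B R).card * E + 1 / 2 * ((B R).offDiag.card * E) ≤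
        ∏ r ∈ Finset.range (R + 1), (1 + ((B r).card : ℝ)) ^ 2 := by
      rw [Finset.prod_range_succ]
      have hc0 : (0 : ℝ) ≤ (B R).card := Nat.cast_nonneg _
      have h4 : 1 + (B R).card + 1 / 2 * ((B R).offDiag.card : ℝ) ≤
          (1 + ((B R).card : ℝ)) ^ 2 := by nlinarith
      calc E + (B R).card * E + 1 / 2 * ((B R).offDiag.card * E)
          = E * (1 + (B R).card + 1 / 2 * ((B R).offDiag.card : ℝ)) := by ring
        _ ≤ E * (1 + ((B R).card : ℝ)) ^ 2 := mul_le_mul_of_nonneg_left h4 hE0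
    refine le_trans (le_of_eq ?_) (hbound.trans hfin)
    congr 1
    rw [Finset.sum_sub_distrib, Finset.sum_sub_distrib]
    ring

/-- Brun's sieve in blocks. -/
theorem brun (a : ℤ) (M : ℕ) (B : ℕ → Finset ℕ) (c : ℕ → ℤ) (R : ℕ)
    (hp : ∀ r < R, ∀ l ∈ B r, l.Prime) (hd : ∀ r < R, ∀ s < r, Disjoint (B r) (B s)) :
    ((((Finset.Ico a (a + M)).filter fun t => ∀ r < R, ∀ l ∈ B r,
      ¬ (l : ℤ) ∣ t - c l).card : ℕ) : ℝ) ≤
      M * ∏ r ∈ Finset.range R, gg (B r) + ∏ r ∈ Finset.range R, (1 + ((B r).card : ℝ)) ^ 2 := by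
  classical
  have h1 := brun_aux a M B c R hp hd 1 one_pos (fun _ _ _ _ => Nat.coprime_one_left _) 0
  have h2 : (Finset.Ico a (a + M)).filter (fun t => ((1 : ℕ) : ℤ) ∣ t - 0) =
      Finset.Ico a (a + M) := by
    refine Finset.filter_true_of_mem fun t _ => ?_
    simp
  rw [h2, Nat.cast_one, div_one, abs_le] at h1
  refine le_trans ?_ (show ∑ t ∈ Finset.Ico a (a + (M : ℤ)), ∏ r ∈ Finset.range R, ff (B r) c t ≤ _
    by linarith [h1.2])
  have h3 : ((((Finset.Ico a (a + M)).filter fun t => ∀ r < R, ∀ l ∈ B r,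
      ¬ (l : ℤ) ∣ t - c l).card : ℕ) : ℝ) = ∑ t ∈ (Finset.Ico a (a + M)).filter (fun t =>
        ∀ r < R, ∀ l ∈ B r, ¬ (l : ℤ) ∣ t - c l), ∏ r ∈ Finset.range R, ff (B r) c t := by
    rw [Finset.card_eq_sum_ones]
    push_cast
    refine Finset.sum_congr rfl fun t ht => ?_
    rw [Finset.mem_filter] at ht
    symm
    refine Finset.prod_eq_one fun r hr => ?_
    exact ff_one _ _ _ (ht.2 r (Finset.mem_range.1 hr))
  rw [h3]
  refine Finset.sum_le_sum_of_subset_of_nonneg (Finset.filter_subset _ _) fun t _ _ => ?_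
  exact Finset.prod_nonneg fun r _ => ff_nonneg _ _ _

end Pool.Agent.Helper86.PW
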