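import Pool.Agent.Helper84.AA.PrimeSum
import Pool.Agent.Helper84.AA.DeltaBd
import Pool.Agent.Helper86.PW.Brun

/-!
# PW (2): the blocks of primes
-/

set_option autoImplicit false

namespace Pool.Agent.Helper86.PW

open Pool.Agent.Helper84.AA

theorem thin {κ : ℝ} (hκ : κ ≤ 1 / 2) (hκ0 : 0 < κ) (P : Finset ℕ) (h2 : ∀ l ∈ P, 2 ≤ l)
    (h : κ ≤ ∑ l ∈ P, (1 : ℝ) / l) :
    ∃ B ⊆ P, κ ≤ ∑ l ∈ B, (1 : ℝ) / l ∧ ∑ l ∈ B, (1 : ℝ) / l ≤ 1 := by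
  classical
  induction P using Finset.induction_on with
  | empty =>
    rw [Finset.sum_empty] at h
    linarith
  | insert l P hl ih =>
    by_cases h1 : κ ≤ ∑ l ∈ P, (1 : ℝ) / l
    · obtain ⟨B, hB, h3⟩ := ih (fun l' hl' => h2 l' (Finset.mem_insert_of_mem hl')) h1
      exact ⟨B, hB.trans (Finset.subset_insert _ _), h3⟩
    · refine ⟨insert l P, subset_rfl, h, ?_⟩
      rw [Finset.sum_insert hl]
      have h4 : (2 : ℝ) ≤ l := by exact_mod_cast h2 l (Finset.mem_insert_self _ _)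
      have h5 : (1 : ℝ) / l ≤ 1 / 2 := one_div_le_one_div_of_le (by norm_num) h4
      push Not at h1
      linarith

/-- A block in one window. -/
theorem block (m : ℕ) [NeZero m] : ∃ κ : ℝ, 0 < κ ∧ κ ≤ 1 / 2 ∧ ∃ Z : ℕ, 3 ≤ Z ∧ ∀ z ≥ Z, ∀ D : ℤ, D ≠ 0 →
    Real.log |(D : ℝ)| ≤ κ * z →
    ∃ B : Finset ℕ, (∀ l ∈ B, l.Prime ∧ l % m = 1 % m ∧ z < l ∧ l ≤ z ^ 32 ∧ ¬ (l : ℤ) ∣ D) ∧
      κ ≤ ∑ l ∈ B, (1 : ℝ) / l ∧ ∑ l ∈ B, (1 : ℝ) / l ≤ 1 := by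
  classical
  obtain ⟨κ, hκ, Z, hZ⟩ := PrimeSumAux.window m
  refine ⟨min (κ / 2) (1 / 2), by positivity, min_le_right _ _, max Z 3, le_max_right _ _,
    fun z hz D hD hlog => ?_⟩
  have hz1 : Z ≤ z := (le_max_left _ _).trans hz
  have hz3 : 3 ≤ z := (le_max_right _ _).trans hz
  have hz0 : (0 : ℝ) < z := by exact_mod_cast (by omega : 0 < z)
  set P₀ := (Finset.Ioc z (z ^ 32)).filter (fun l => l.Prime ∧ l % m = 1 % m) with hP₀
  have h1 := hZ z hz1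
  have h2 : ∑ l ∈ P₀.filter (fun l : ℕ => (l : ℤ) ∣ D), (1 : ℝ) / l ≤ min (κ / 2) (1 / 2) := by
    refine (small_sum hD hz3 _ ?_).trans ?_
    · intro l hl
      rw [Finset.mem_filter, hP₀, Finset.mem_filter, Finset.mem_Ioc] at hl
      exact ⟨hl.1.2.1, hl.1.1.1, hl.2⟩
    · rwa [div_le_iff₀ hz0]
  have h3 := Finset.sum_filter_add_sum_filter_not P₀ (fun l : ℕ => (l : ℤ) ∣ D)
    (fun l => (1 : ℝ) / l)
  have h4 : min (κ / 2) (1 / 2) ≤ κ / 2 := min_le_left _ _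
  obtain ⟨B, hB, hB2⟩ := thin (κ := min (κ / 2) (1 / 2)) (min_le_right _ _) (by positivity)
    (P₀.filter fun l : ℕ => ¬ (l : ℤ) ∣ D) (by
      intro l hl
      rw [Finset.mem_filter, hP₀, Finset.mem_filter] at hl
      exact hl.1.2.1.two_le) (by linarith)
  refine ⟨B, fun l hl => ?_, hB2⟩
  have h5 := hB hl
  rw [Finset.mem_filter, hP₀, Finset.mem_filter, Finset.mem_Ioc] at h5
  exact ⟨h5.1.2.1, h5.1.2.2, h5.1.1.1, h5.1.1.2, h5.2⟩

/-- The sieve bound for blocks in the windows of `z`. -/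
theorem brun_windows {κ : ℝ} (hκ0 : 0 < κ) (a : ℤ) (M : ℕ) (B : ℕ → Finset ℕ)
    (c : ℕ → ℤ) (R z : ℕ) (hz : 2 ≤ z)
    (hB : ∀ r < R, ∀ l ∈ B r, l.Prime ∧ z ^ 32 ^ r < l ∧ l ≤ z ^ 32 ^ (r + 1))
    (hs : ∀ r < R, κ ≤ ∑ l ∈ B r, (1 : ℝ) / l ∧ ∑ l ∈ B r, (1 : ℝ) / l ≤ 1) :
    ((((Finset.Ico a (a + M)).filter fun t => ∀ r < R, ∀ l ∈ B r,
      ¬ (l : ℤ) ∣ t - c l).card : ℕ) : ℝ) ≤ M * (1 - κ / 2) ^ R + (z : ℝ) ^ (3 * 32 ^ R) := by
  have hz1 : 1 ≤ z := by omega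
  have hzR : (1 : ℝ) ≤ z := by exact_mod_cast hz1
  refine (brun a M B c R (fun r hr l hl => (hB r hr l hl).1) ?_).trans (add_le_add ?_ ?_)
  · intro r hr s hs'
    rw [Finset.disjoint_left]
    intro l hl hl'
    have h1 := (hB r hr l hl).2.1
    have h2 := (hB s (by omega) l hl').2.2
    have h3 : z ^ 32 ^ (s + 1) ≤ z ^ 32 ^ r :=
      Nat.pow_le_pow_right hz1 (Nat.pow_le_pow_right (by norm_num) (by omega))
    omega
  · refine mul_le_mul_of_nonneg_left ?_ (Nat.cast_nonneg _)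
    have h1 : ∀ r ∈ Finset.range R, gg (B r) ≤ 1 - κ / 2 := by
      intro r hr
      obtain ⟨h1, h2⟩ := hs r (Finset.mem_range.1 hr)
      have h3 := gg_le (B r)
      nlinarith
    have h2 : ∀ r ∈ Finset.range R, 0 ≤ gg (B r) := fun r hr =>
      gg_nonneg _ (hs r (Finset.mem_range.1 hr)).2
    refine (Finset.prod_le_prod h2 h1).trans (le_of_eq ?_)
    rw [Finset.prod_const, Finset.card_range]
  · have h1 : ∀ r ∈ Finset.range R, (1 + ((B r).card : ℝ)) ^ 2 ≤ (z : ℝ) ^ (2 * 32 ^ (r + 1)) := by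
      intro r hr
      have h2 : B r ⊆ Finset.Ioc (z ^ 32 ^ r) (z ^ 32 ^ (r + 1)) := by
        intro l hl
        have := hB r (Finset.mem_range.1 hr) l hl
        exact Finset.mem_Ioc.2 this.2
      have h3 := Finset.card_le_card h2
      rw [Nat.card_Ioc] at h3
      have h4 : 1 ≤ z ^ 32 ^ r := Nat.one_le_pow _ _ hz1
      have h5 : z ^ 32 ^ r ≤ z ^ 32 ^ (r + 1) :=
        Nat.pow_le_pow_right hz1 (Nat.pow_le_pow_right (by norm_num) (by omega))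
      have h6 : 1 + (B r).card ≤ z ^ 32 ^ (r + 1) := by omega
      have h7 : (1 + ((B r).card : ℝ)) ≤ (z : ℝ) ^ 32 ^ (r + 1) := by exact_mod_cast h6
      calc (1 + ((B r).card : ℝ)) ^ 2 ≤ ((z : ℝ) ^ 32 ^ (r + 1)) ^ 2 :=
            pow_le_pow_left₀ (by positivity) h7 2
        _ = (z : ℝ) ^ (2 * 32 ^ (r + 1)) := by rw [← pow_mul, mul_comm]
    refine (Finset.prod_le_prod (fun r _ => by positivity) h1).trans ?_
    rw [Finset.prod_pow_eq_pow_sum]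
    refine pow_le_pow_right₀ hzR ?_
    have h8 : ∀ n : ℕ, ∑ r ∈ Finset.range n, 2 * 32 ^ (r + 1) + 2 ≤ 3 * 32 ^ n := by
      intro n
      induction n with
      | zero => simp
      | succ n ih =>
        rw [Finset.sum_range_succ, pow_succ]
        omega
    exact (Nat.le_add_right _ 2).trans (h8 R)

end Pool.Agent.Helper86.PW
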