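import Pool.Agent.Helper19.AAP.Defs
import Pool.Agent.Helper86.PW.Blocks

/-!
# PW (3): the sieve on the interval of last coefficients, with a power saving
-/

set_option autoImplicit false

open Polynomial

namespace Pool.Agent.Helper86.PW

open Pool.Agent.Helper84.AA Pool.Agent.Helper19.AAT Pool.Agent.Helper19.AAP

theorem sieve_core {q : ℕ} (hq : 1 ≤ q) {κ : ℝ} (hκ0 : 0 < κ) {Z : ℕ}
    (hblock : ∀ z ≥ Z, ∀ D : ℤ, D ≠ 0 → Real.log |(D : ℝ)| ≤ κ * z →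
      ∃ B : Finset ℕ, (∀ l ∈ B, l.Prime ∧ l % (8 * q) = 1 % (8 * q) ∧ z < l ∧ l ≤ z ^ 32 ∧
        ¬ (l : ℤ) ∣ D) ∧ κ ≤ ∑ l ∈ B, (1 : ℝ) / l ∧ ∑ l ∈ B, (1 : ℝ) / l ≤ 1)
    {c : ℝ} (hc : ∀ g : ℕ, 1 ≤ g → ∀ h : ℤ[X], IsTrace q g h →
      |((Delta q (h - C (h.coeff 0)) : ℤ) : ℝ)| ≤ Real.exp (c * g ^ 2)) {g R : ℕ} (hg5 : 3 ≤ g)
    (hz : Z ≤ 8 ^ (Nat.sqrt g + 1)) (hgz : g ≤ 8 ^ (Nat.sqrt g + 1))
    (hcz : c * (g : ℝ) ^ 2 ≤ κ * ((8 ^ (Nat.sqrt g + 1) : ℕ) : ℝ))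
    (hRz : (((8 ^ (Nat.sqrt g + 1) : ℕ) : ℝ)) ^ (3 * 32 ^ R) ≤ (1003 / 1000 : ℝ) ^ g)
    (u : ℤ[X]) (hu : u ∈ preSet q g (g - 1)) (hD : Delta q (X * u) ≠ 0)
    (hM : (101 / 100 : ℝ) ^ g ≤ (Jset q g u).ncard) :
      (({t ∈ Jset q g u | ¬ NiceZ q g (X * u + C t)}.ncard : ℕ) : ℝ) ≤
        ((1 - κ / 2) ^ R + 1 / ((8 ^ (Nat.sqrt g + 1) : ℕ) : ℝ)) * (Jset q g u).ncard +
          2 * (1003 / 1000 : ℝ) ^ g := by
  classical
  have hgR : (3 : ℝ) ≤ g := by exact_mod_cast hg5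
  obtain ⟨a, M, hJ⟩ := Jset_Ico q g u
  have hJc : (Jset q g u).ncard = M := by
    rw [hJ]
    have : (Set.Ico a (a + M) : Set ℤ) = ((Finset.Ico a (a + (M : ℤ)) : Finset ℤ) : Set ℤ) := by
      simp
    rw [this, Set.ncard_coe_finset]
    simp
  rw [hJc] at hM ⊢
  obtain ⟨hum, hud⟩ := pre_monic (q := q) (g := g) (n := g - 1) (by omega) hu
  have hHm : (X * u).Monic := monic_X.mul hum
  have hHd : (X * u).natDegree = g := by
    rw [natDegree_X_mul hum.ne_zero, hud]; omega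
  have hpow1 : (1 : ℝ) ≤ (101 / 100 : ℝ) ^ g := one_le_pow₀ (by norm_num)
  have hM1 : (1 : ℝ) ≤ M := le_trans hpow1 hM
  have hMpos : 0 < M := by
    have : (0 : ℝ) < M := by linarith
    exact_mod_cast this
  -- the bound on the discriminant
  have ha : a ∈ Jset q g u := by
    rw [hJ]; exact ⟨le_refl _, by
      have : (0 : ℤ) < M := by exact_mod_cast hMpos
      linarith⟩
  have hDb : |((Delta q (X * u) : ℤ) : ℝ)| ≤ Real.exp (c * g ^ 2) := by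
    have h1 := hc g (by omega) (X * u + C a) ha
    have h2 : (X * u + C a : ℤ[X]).coeff 0 = a := by simp
    rw [h2] at h1
    simpa using h1
  have hDne : ((Delta q (X * u) : ℤ) : ℝ) ≠ 0 := by exact_mod_cast hD
  have hlog : Real.log |((Delta q (X * u) : ℤ) : ℝ)| ≤ c * g ^ 2 := by
    have := Real.log_le_log (abs_pos.2 hDne) hDb
    rwa [Real.log_exp] at this
  set z : ℕ := 8 ^ (Nat.sqrt g + 1) with hzd
  have hz3 : 3 ≤ z := hg5.trans hgz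
  have hz1 : 1 ≤ z := by omega
  have hzr : ∀ r : ℕ, z ≤ z ^ 32 ^ r := fun r => Nat.le_self_pow (by positivity) z
  -- the blocks
  have hbl : ∀ r : ℕ, ∃ B : Finset ℕ, (∀ l ∈ B, l.Prime ∧ l % (8 * q) = 1 % (8 * q) ∧
      z ^ 32 ^ r < l ∧ l ≤ (z ^ 32 ^ r) ^ 32 ∧ ¬ (l : ℤ) ∣ Delta q (X * u)) ∧
      κ ≤ ∑ l ∈ B, (1 : ℝ) / l ∧ ∑ l ∈ B, (1 : ℝ) / l ≤ 1 := by
    intro r
    refine hblock (z ^ 32 ^ r) (hz.trans (hzr r)) _ hD (hlog.trans (hcz.trans ?_))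
    refine mul_le_mul_of_nonneg_left ?_ hκ0.le
    exact_mod_cast hzr r
  choose B hB hBs using hbl
  have hpp : ∀ r : ℕ, (z ^ 32 ^ r) ^ 32 = z ^ 32 ^ (r + 1) := fun r => by
    rw [← pow_mul, pow_succ]
  set P := (Finset.range R).biUnion B with hP
  have hmem : ∀ l ∈ P, l.Prime ∧ z < l ∧ l % (8 * q) = 1 % (8 * q) ∧ l ≤ z ^ 32 ^ R ∧
      ¬ (l : ℤ) ∣ Delta q (X * u) := by
    intro l hl
    rw [hP, Finset.mem_biUnion] at hl
    obtain ⟨r, hr, hlr⟩ := hl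
    rw [Finset.mem_range] at hr
    obtain ⟨h1, h2, h3, h4, h5⟩ := hB r l hlr
    refine ⟨h1, (hzr r).trans_lt h3, h2, ?_, h5⟩
    rw [hpp] at h4
    exact h4.trans (Nat.pow_le_pow_right hz1 (Nat.pow_le_pow_right (by norm_num) (by omega)))
  -- cardinality
  have hzRR : (1 : ℝ) ≤ z := by exact_mod_cast hz1
  have hPcard : (P.card : ℝ) ≤ (1003 / 1000 : ℝ) ^ g := by
    have h1 : P.card ≤ z ^ 32 ^ R := by
      have h2 : P ⊆ Finset.Ioc 0 (z ^ 32 ^ R) := fun l hl =>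
        Finset.mem_Ioc.2 ⟨(hmem l hl).1.pos, (hmem l hl).2.2.2.1⟩
      calc P.card ≤ (Finset.Ioc 0 (z ^ 32 ^ R)).card := Finset.card_le_card h2
        _ = z ^ 32 ^ R := by simp
    calc (P.card : ℝ) ≤ (z : ℝ) ^ 32 ^ R := by exact_mod_cast h1
      _ ≤ (z : ℝ) ^ (3 * 32 ^ R) := pow_le_pow_right₀ hzRR (by omega)
      _ ≤ (1003 / 1000 : ℝ) ^ g := hRz
  -- the square roots
  have hroot : ∀ l : ℕ, ∃ r : ℤ, l ∈ P → (l : ℤ) ^ 2 ∣ r ^ 2 - q := by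
    intro l
    by_cases hl : l ∈ P
    · obtain ⟨r, hr⟩ := exists_sqrt hq (hmem l hl).1 (hmem l hl).2.2.1
      exact ⟨r, fun _ => hr⟩
    · exact ⟨0, fun h => absurd h hl⟩
  choose r hr using hroot
  have ht1 := brun_windows hκ0 a M B (fun l => - (X * u).eval (2 * r l)) R z (by omega)
    (fun r' _ l hl => ⟨(hB r' l hl).1, (hB r' l hl).2.2.1, by
      have := (hB r' l hl).2.2.2.1
      rwa [hpp] at this⟩) (fun r' _ => hBs r')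
  have ht2 := square_div a M z hz1 P (fun l hl => (hmem l hl).2.1)
    (fun l => - (X * u).eval (2 * r l))
  set F1 := (Finset.Ico a (a + (M : ℤ))).filter fun t => ∀ r' < R, ∀ l ∈ B r',
    ¬ (l : ℤ) ∣ t - - (X * u).eval (2 * r l) with hF1
  set F2 := (Finset.Ico a (a + (M : ℤ))).filter fun t => ∃ l ∈ P,
    ((l : ℤ) ^ 2) ∣ t - - (X * u).eval (2 * r l) with hF2
  have hsub : {t ∈ Jset q g u | ¬ NiceZ q g (X * u + C t)} ⊆ ((F1 ∪ F2 : Finset ℤ) : Set ℤ) := by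
    rintro t ⟨htJ, htN⟩
    have htI : t ∈ Finset.Ico a (a + (M : ℤ)) := by
      rw [hJ] at htJ
      exact Finset.mem_Ico.2 htJ
    by_contra hcon
    rw [Finset.mem_coe, Finset.mem_union, not_or] at hcon
    obtain ⟨hc1, hc2⟩ := hcon
    rw [hF1, Finset.mem_filter, not_and] at hc1
    rw [hF2, Finset.mem_filter, not_and] at hc2
    have hc1' := hc1 htI
    have hc2' := hc2 htI
    push Not at hc1' hc2'
    obtain ⟨r', hr', l, hlB, hl1⟩ := hc1'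
    have hlP : l ∈ P := Finset.mem_biUnion.2 ⟨r', Finset.mem_range.2 hr', hlB⟩
    have hl2 := hc2' l hlP
    obtain ⟨p1, p2, p3, p4, p5⟩ := hmem l hlP
    have hgl : g < l := lt_of_le_of_lt hgz p2
    have e1 : t - - (X * u).eval (2 * r l) = (X * u).eval (2 * r l) + t := by ring
    rw [e1] at hl1 hl2
    exact htN ⟨l, p2, nice_at hq (by omega) hHm hHd p1 hgl (hr l hlP) hl1 hl2 p5⟩
  have hcardle : ({t ∈ Jset q g u | ¬ NiceZ q g (X * u + C t)}.ncard : ℝ) ≤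
      (F1.card : ℝ) + F2.card := by
    have h1 : {t ∈ Jset q g u | ¬ NiceZ q g (X * u + C t)}.ncard ≤ (F1 ∪ F2).card := by
      rw [← Set.ncard_coe_finset]
      exact Set.ncard_le_ncard hsub (Finset.finite_toSet _)
    have h2 : (F1 ∪ F2).card ≤ F1.card + F2.card := Finset.card_union_le _ _
    exact_mod_cast h1.trans h2
  calc (({t ∈ Jset q g u | ¬ NiceZ q g (X * u + C t)}.ncard : ℕ) : ℝ)
      ≤ (F1.card : ℝ) + F2.card := hcardle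
    _ ≤ (M * (1 - κ / 2) ^ R + (z : ℝ) ^ (3 * 32 ^ R)) + (M / z + P.card) := add_le_add ht1 ht2
    _ ≤ (M * (1 - κ / 2) ^ R + (1003 / 1000 : ℝ) ^ g) + (M / z + (1003 / 1000 : ℝ) ^ g) := by
        gcongr
    _ = ((1 - κ / 2) ^ R + 1 / (z : ℝ)) * M + 2 * (1003 / 1000 : ℝ) ^ g := by ring

/-- `s ^ 2 ≤ 2 ^ s`. -/
theorem sq_le_two_pow (s : ℕ) (hs : 4 ≤ s) : s ^ 2 ≤ 2 ^ s := by
  induction s, hs using Nat.le_induction with
  | base => norm_num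
  | succ s hs ih =>
    rw [pow_succ 2 s]
    nlinarith

theorem cube_lt (g : ℕ) (hg : 9 ≤ g) : g ^ 3 ≤ 8 ^ (Nat.sqrt g + 1) := by
  have h1 : g < (Nat.sqrt g + 1) ^ 2 := Nat.lt_succ_sqrt' g
  have h3 : 3 ≤ Nat.sqrt g := by
    rw [Nat.le_sqrt]
    omega
  have h2 := sq_le_two_pow (Nat.sqrt g + 1) (by omega)
  calc g ^ 3 ≤ (2 ^ (Nat.sqrt g + 1)) ^ 3 := Nat.pow_le_pow_left (by omega) 3
    _ = 8 ^ (Nat.sqrt g + 1) := by
        rw [← pow_mul, mul_comm, pow_mul]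
        norm_num

/-- The power saving. -/
theorem sieve_pow {q : ℕ} (hq : 1 ≤ q) : ∃ d : ℝ, 0 < d ∧ ∃ c : ℝ, 0 < c ∧ ∃ G : ℕ, ∀ g ≥ G,
    ∀ u ∈ preSet q g (g - 1), Delta q (X * u) ≠ 0 →
      (101 / 100 : ℝ) ^ g ≤ (Jset q g u).ncard →
      (({t ∈ Jset q g u | ¬ NiceZ q g (X * u + C t)}.ncard : ℕ) : ℝ) ≤
        c * (g : ℝ) ^ (-d) * (Jset q g u).ncard := by
  obtain ⟨c₀, hc⟩ := delta_bound q hq
  have : NeZero (8 * q) := ⟨by omega⟩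
  obtain ⟨κ, hκ0, hκ2, Z, hZ3, hblock⟩ := block (8 * q)
  -- the exponent
  have hρ0 : 0 < 1 - κ / 2 := by linarith
  have hρ1 : 1 - κ / 2 < 1 := by linarith
  obtain ⟨d, hd⟩ : ∃ d : ℝ, d = - Real.log (1 - κ / 2) / 16 := ⟨_, rfl⟩
  have hlogρ : Real.log (1 - κ / 2) = - 16 * d := by rw [hd]; ring
  have hd0 : 0 < d := by
    have := Real.log_neg hρ0 hρ1
    rw [hd]
    linarith
  have hd1 : d ≤ 1 := by
    have h1 : Real.log (3 / 4) ≤ Real.log (1 - κ / 2) :=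
      Real.log_le_log (by norm_num) (by linarith)
    have h2 : -1 ≤ Real.log (3 / 4 : ℝ) := by
      rw [Real.le_log_iff_exp_le (by norm_num)]
      have h3 : Real.exp (-1) = 1 / Real.exp 1 := by rw [Real.exp_neg]; ring
      rw [h3, div_le_iff₀ (Real.exp_pos 1)]
      have := Real.exp_one_gt_d9
      linarith
    rw [hd]
    linarith
  obtain ⟨c₁, hc₁⟩ : ∃ c₁, c₁ = Real.log (1003 / 1000) := ⟨_, rfl⟩
  have hc₁0 : 0 < c₁ := by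
    rw [hc₁]
    exact Real.log_pos (by norm_num)
  have hlim : Filter.Tendsto (fun n : ℕ => (n : ℝ) * ((1003 / 1000 : ℝ) / (101 / 100)) ^ n)
      Filter.atTop (nhds 0) := tendsto_self_mul_const_pow_of_lt_one (by norm_num) (by norm_num)
  obtain ⟨G₂, hG₂⟩ := Filter.eventually_atTop.1
    (hlim.eventually (gt_mem_nhds (show (0 : ℝ) < 1 / 2 by norm_num)))
  obtain ⟨G₃, hG₃⟩ := exists_nat_ge (c₀ / κ)
  obtain ⟨G₄, hG₄⟩ := exists_nat_ge ((18 / c₁) ^ 4)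
  refine ⟨d, hd0, Real.exp (16 * d) + 2, by positivity,
    max (max (max Z G₂) (max G₃ G₄)) 9, fun g hg u hu hD hM => ?_⟩
  have hg1 : Z ≤ g := le_trans (by simp) hg
  have hg2 : G₂ ≤ g := le_trans (by simp) hg
  have hg3 : G₃ ≤ g := le_trans (by simp) hg
  have hg4 : G₄ ≤ g := le_trans (by simp) hg
  have hg9 : 9 ≤ g := le_trans (by simp) hg
  have hgR : (9 : ℝ) ≤ g := by exact_mod_cast hg9
  have hg0 : (0 : ℝ) < g := by linarith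
  have hcube := cube_lt g hg9
  have hgz : g ≤ 8 ^ (Nat.sqrt g + 1) := (Nat.le_self_pow (by norm_num) g).trans hcube
  obtain ⟨L, hL⟩ : ∃ L, L = Real.log g := ⟨_, rfl⟩
  have hL0 : 0 ≤ L := by rw [hL]; exact Real.log_nonneg (by linarith)
  obtain ⟨R, hR⟩ : ∃ R, R = ⌊L / 16⌋₊ := ⟨_, rfl⟩
  have hR1 : (R : ℝ) ≤ L / 16 := by
    rw [hR]
    exact Nat.floor_le (by linarith)
  have hR2 : L / 16 - 1 < R := by
    rw [hR]
    exact Nat.sub_one_lt_floor _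
  -- the size of the product
  have h32 : (32 : ℝ) ≤ Real.exp 4 := by
    have h1 : Real.exp 4 = (Real.exp 1) ^ 4 := by
      rw [← Real.exp_nat_mul]
      norm_num
    have h2 := Real.exp_one_gt_d9
    rw [h1]
    calc (32 : ℝ) ≤ 2.5 ^ 4 := by norm_num
      _ ≤ (Real.exp 1) ^ 4 := by gcongr; linarith
  have hpow : ((32 : ℝ) ^ R) ≤ (g : ℝ) ^ (1 / 4 : ℝ) := by
    calc ((32 : ℝ) ^ R) ≤ (Real.exp 4) ^ R := by gcongr
      _ = Real.exp (R * 4) := (Real.exp_nat_mul _ _).symm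
      _ ≤ Real.exp (L * (1 / 4)) := by
          apply Real.exp_le_exp.mpr
          linarith
      _ = (g : ℝ) ^ (1 / 4 : ℝ) := by
          rw [Real.rpow_def_of_pos hg0, hL]
  have hs : ((Nat.sqrt g + 1 : ℕ) : ℝ) ≤ 2 * (g : ℝ) ^ (1 / 2 : ℝ) := by
    have h1 : (Nat.sqrt g : ℝ) ≤ √(g : ℝ) := Real.nat_sqrt_le_real_sqrt
    have h2 : (1 : ℝ) ≤ √(g : ℝ) := by
      rw [Real.one_le_sqrt]
      linarith
    rw [← Real.sqrt_eq_rpow]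
    push_cast
    linarith
  have h8 : Real.log 8 ≤ 3 := by
    rw [Real.log_le_iff_le_exp (by norm_num)]
    have h1 : Real.exp 3 = (Real.exp 1) ^ 3 := by
      rw [← Real.exp_nat_mul]
      norm_num
    have h2 := Real.exp_one_gt_d9
    rw [h1]
    calc (8 : ℝ) ≤ 2 ^ 3 := by norm_num
      _ ≤ (Real.exp 1) ^ 3 := by gcongr; linarith
  have h80 : 0 ≤ Real.log 8 := Real.log_nonneg (by norm_num)
  have hq4 : 18 / c₁ ≤ (g : ℝ) ^ (1 / 4 : ℝ) := by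
    have h0 : (18 / c₁) ^ 4 ≤ (g : ℝ) := hG₄.trans (by exact_mod_cast hg4)
    have h1 : ((18 / c₁) ^ 4) ^ (1 / 4 : ℝ) ≤ (g : ℝ) ^ (1 / 4 : ℝ) :=
      Real.rpow_le_rpow (by positivity) h0 (by norm_num)
    have h2 : ((18 / c₁) ^ 4) ^ (1 / 4 : ℝ) = 18 / c₁ := by
      rw [← Real.rpow_natCast, ← Real.rpow_mul (by positivity)]
      norm_num
    rwa [h2] at h1
  have hprod : (g : ℝ) = (g : ℝ) ^ (1 / 2 : ℝ) * (g : ℝ) ^ (1 / 4 : ℝ) * (g : ℝ) ^ (1 / 4 : ℝ) := by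
    rw [← Real.rpow_add hg0, ← Real.rpow_add hg0]
    norm_num
  have hRz : (((8 ^ (Nat.sqrt g + 1) : ℕ) : ℝ)) ^ (3 * 32 ^ R) ≤ (1003 / 1000 : ℝ) ^ g := by
    have e1 : (((8 ^ (Nat.sqrt g + 1) : ℕ) : ℝ)) ^ (3 * 32 ^ R) =
        Real.exp (((Nat.sqrt g + 1 : ℕ) : ℝ) * (3 * 32 ^ R) * Real.log 8) := by
      have h1 : (((8 ^ (Nat.sqrt g + 1) : ℕ) : ℝ)) ^ (3 * 32 ^ R) =
          (8 : ℝ) ^ ((Nat.sqrt g + 1) * (3 * 32 ^ R)) := by
        push_cast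
        rw [← pow_mul]
      rw [h1]
      conv_lhs => rw [← Real.exp_log (show (0 : ℝ) < 8 by norm_num)]
      rw [← Real.exp_nat_mul]
      push_cast
      rfl
    have e2 : (1003 / 1000 : ℝ) ^ g = Real.exp (g * c₁) := by
      rw [hc₁, Real.exp_nat_mul, Real.exp_log (by norm_num)]
    rw [e1, e2]
    apply Real.exp_le_exp.2
    have p2 : (0 : ℝ) ≤ (g : ℝ) ^ (1 / 2 : ℝ) := by positivity
    have p4 : (0 : ℝ) ≤ (g : ℝ) ^ (1 / 4 : ℝ) := by positivity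
    have h18 : 18 ≤ (g : ℝ) ^ (1 / 4 : ℝ) * c₁ := by rwa [div_le_iff₀ hc₁0] at hq4
    calc ((Nat.sqrt g + 1 : ℕ) : ℝ) * (3 * 32 ^ R) * Real.log 8
        ≤ (2 * (g : ℝ) ^ (1 / 2 : ℝ)) * (3 * (g : ℝ) ^ (1 / 4 : ℝ)) * 3 := by
          gcongr
      _ = 18 * ((g : ℝ) ^ (1 / 2 : ℝ) * (g : ℝ) ^ (1 / 4 : ℝ)) := by ring
      _ ≤ ((g : ℝ) ^ (1 / 4 : ℝ) * c₁) * ((g : ℝ) ^ (1 / 2 : ℝ) * (g : ℝ) ^ (1 / 4 : ℝ)) :=
          mul_le_mul_of_nonneg_right h18 (by positivity)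
      _ = ((g : ℝ) ^ (1 / 2 : ℝ) * (g : ℝ) ^ (1 / 4 : ℝ) * (g : ℝ) ^ (1 / 4 : ℝ)) * c₁ := by ring
      _ = g * c₁ := by rw [← hprod]
  have hcz : c₀ * (g : ℝ) ^ 2 ≤ κ * ((8 ^ (Nat.sqrt g + 1) : ℕ) : ℝ) := by
    have h1 : c₀ ≤ κ * g := by
      have h2 : c₀ / κ ≤ g := hG₃.trans (by exact_mod_cast hg3)
      rw [div_le_iff₀ hκ0] at h2
      linarith
    have h3 : ((g : ℝ)) ^ 3 ≤ ((8 ^ (Nat.sqrt g + 1) : ℕ) : ℝ) := by exact_mod_cast hcube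
    calc c₀ * (g : ℝ) ^ 2 ≤ (κ * g) * (g : ℝ) ^ 2 := mul_le_mul_of_nonneg_right h1 (by positivity)
      _ = κ * (g : ℝ) ^ 3 := by ring
      _ ≤ _ := mul_le_mul_of_nonneg_left h3 hκ0.le
  have hmain := sieve_core hq hκ0 hblock hc (R := R) (by omega) (hg1.trans hgz) hgz hcz hRz u hu hD hM
  refine hmain.trans ?_
  -- the three terms
  have hM0 : (0 : ℝ) ≤ (Jset q g u).ncard := Nat.cast_nonneg _
  have hgd : (g : ℝ)⁻¹ ≤ (g : ℝ) ^ (-d) := by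
    rw [← Real.rpow_neg_one]
    exact Real.rpow_le_rpow_of_exponent_le (by linarith) (by linarith)
  have t1 : (1 - κ / 2) ^ R ≤ Real.exp (16 * d) * (g : ℝ) ^ (-d) := by
    have h1 : (1 - κ / 2) ^ R = Real.exp (R * (-16 * d)) := by
      rw [Real.exp_nat_mul, ← hlogρ, Real.exp_log hρ0]
    rw [h1, Real.rpow_def_of_pos hg0, ← hL, ← Real.exp_add]
    apply Real.exp_le_exp.2
    nlinarith
  have t2 : 1 / ((8 ^ (Nat.sqrt g + 1) : ℕ) : ℝ) ≤ (g : ℝ) ^ (-d) := by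
    refine le_trans ?_ hgd
    rw [← one_div]
    exact one_div_le_one_div_of_le hg0 (by exact_mod_cast hgz)
  have t3 : 2 * (1003 / 1000 : ℝ) ^ g ≤ (g : ℝ) ^ (-d) * (Jset q g u).ncard := by
    have h1 := hG₂ g hg2
    rw [div_pow] at h1
    have h2 : (0 : ℝ) < (101 / 100 : ℝ) ^ g := by positivity
    have h3 : 2 * (1003 / 1000 : ℝ) ^ g ≤ (g : ℝ)⁻¹ * (101 / 100 : ℝ) ^ g := by
      have h4 : (g : ℝ) * ((1003 / 1000 : ℝ) ^ g / (101 / 100) ^ g) =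
          (g * (1003 / 1000 : ℝ) ^ g) / (101 / 100) ^ g := by ring
      rw [h4, div_lt_iff₀ h2] at h1
      rw [inv_mul_eq_div, le_div_iff₀ hg0]
      linarith
    calc 2 * (1003 / 1000 : ℝ) ^ g ≤ (g : ℝ)⁻¹ * (101 / 100 : ℝ) ^ g := h3
      _ ≤ (g : ℝ) ^ (-d) * (Jset q g u).ncard := by
          refine mul_le_mul hgd hM h2.le (by positivity)
  calc ((1 - κ / 2) ^ R + 1 / ((8 ^ (Nat.sqrt g + 1) : ℕ) : ℝ)) * (Jset q g u).ncard +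
        2 * (1003 / 1000 : ℝ) ^ g
      ≤ (Real.exp (16 * d) * (g : ℝ) ^ (-d) + (g : ℝ) ^ (-d)) * (Jset q g u).ncard +
        (g : ℝ) ^ (-d) * (Jset q g u).ncard := by
        refine add_le_add (mul_le_mul_of_nonneg_right (add_le_add t1 t2) hM0) t3
    _ = (Real.exp (16 * d) + 2) * (g : ℝ) ^ (-d) * (Jset q g u).ncard := by ring

end Pool.Agent.Helper86.PW
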